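import Mathlib
import Pool.Agent.Helper714.BU.Defs
import Pool.Agent.Helper714.BU.L8
import Pool.Agent.Helper714.BU.Main4

set_option autoImplicit false

open Polynomial Metric Topology

namespace Pool.Agent.Results.MP_e182ca_an.MaxLastCoeff

open Pool.Agent.Helper714

/-- For every `n ≥ 2` the maximum of `|aₙ|` over all bi-univalent polynomials
`z + a₂ z² + ... + aₙ zⁿ` exists and equals `(n-1)^(n-1) / n^n`. -/
theorem result (n : ℕ) (hn : 2 ≤ n) :
    IsGreatest {x : ℝ | ∃ P ∈ V n, x = ‖P.coeff n‖} (((n : ℝ) - 1) ^ (n - 1) / (n : ℝ) ^ n) := by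
  constructor
  · refine ⟨_, L8.extremal n hn, ?_⟩
    have h1 : (0 : ℝ) ≤ ((n : ℝ) - 1) ^ (n - 1) / (n : ℝ) ^ n := by
      have : (0 : ℝ) ≤ (n : ℝ) - 1 := by
        have : (2 : ℝ) ≤ n := by exact_mod_cast hn
        linarith
      positivity
    have hX : (X : ℂ[X]).coeff n = 0 := by
      rw [coeff_X]
      simp
      omega
    rw [coeff_add, coeff_C_mul, coeff_X_pow, if_pos rfl, mul_one, hX, zero_add,
      Complex.norm_real, Real.norm_of_nonneg h1]
  · rintro x ⟨P, hP, rfl⟩
    exact Main.upper_bound n hn P hP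

end Pool.Agent.Results.MP_e182ca_an.MaxLastCoeff
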